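import Pool.Agent.H44.RK.Final

/-!
# MP_97bd52_lc: query lower bounds for approximating the rank of sparse matrices

The model (`Pool.Agent.H44.RK.Alg`): a deterministic algorithm is an adaptive decision tree with at
most `q` queries; a query names a row or a column of the matrix and is answered with that whole row
or column (positions and values of its nonzero entries); a leaf outputs a real number.  A
randomised algorithm is a probability distribution on such trees.  `Approx p n q μ δ` says that on
every `n × n` matrix over `ZMod p` with at most three nonzero entries in every row and column the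
output is within `δ` of the rank with probability at least `2/3`.

Main theorem: for all `a ≥ 2` and all `n ≥ 10 p a³ pᵃ`, an approximation within
`n / (41 p³ a²)` needs more than `pᵃ / 2` queries.  Consequences: for fixed relative error `ε` the
number of queries is at least exponential in `1/√ε`, and for error `c n / log² n` it is at least
`c n / log³ n`.
-/

namespace Pool.Agent.Results.MP_97bd52_lc.QueryLowerBounds

open Pool.Agent.H44.RK

theorem result (p : ℕ) [Fact p.Prime] :
    (∀ a n q : ℕ, 2 ≤ a → 10 * p * a ^ 3 * p ^ a ≤ n →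
      ∀ μ : PMF (Alg (Fin n) (Fin n) (ZMod p) q),
        Approx p n q μ ((n : ℝ) / (41 * p ^ 3 * a ^ 2)) → p ^ a < 2 * q) ∧
    (∃ c : ℝ, 0 < c ∧ ∀ ε : ℝ, 0 < ε → ε ≤ c → ∃ n₀ : ℕ, ∀ n : ℕ, n₀ ≤ n → ∀ (q : ℕ)
      (μ : PMF (Alg (Fin n) (Fin n) (ZMod p) q)), Approx p n q μ (ε * n) →
        (2 : ℝ) ^ (c / √ε) < q) ∧
    (∃ c : ℝ, 0 < c ∧ ∀ n : ℕ, 80 * p ^ 3 ≤ n → ∀ (q : ℕ)
      (μ : PMF (Alg (Fin n) (Fin n) (ZMod p) q)), Approx p n q μ (c * n / Real.log n ^ 2) →
        c * n / Real.log n ^ 3 < q) :=
  ⟨fun a n q ha hn μ hμ => main_bound p a n q ha hn μ hμ, eps_bound p, log_bound p⟩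

end Pool.Agent.Results.MP_97bd52_lc.QueryLowerBounds
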